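import Mathlib

namespace Pool.Agent.Results.MP_0fbb7a_co.Vanish

/-- The factor of length `n` of the infinite word `u` starting at position `i`. -/
def fac {A : Type*} (u : ℕ → A) (i n : ℕ) : List A := (List.range n).map fun k => u (i + k)

/-- The language of `u`: all finite factors (the empty word included). -/
def Lang {A : Type*} (u : ℕ → A) : Set (List A) := {w | ∃ i n, w = fac u i n}

/-- Factor complexity. -/
noncomputable def C {A : Type*} (u : ℕ → A) (n : ℕ) : ℕ :=
  {w | w ∈ Lang u ∧ w.length = n}.ncard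

/-- Palindromic complexity. -/
noncomputable def P {A : Type*} (u : ℕ → A) (n : ℕ) : ℕ :=
  {w | w ∈ Lang u ∧ w.length = n ∧ w.reverse = w}.ncard

/-- The function `T_u`. -/
noncomputable def T {A : Type*} (u : ℕ → A) (n : ℕ) : ℤ :=
  (C u (n + 1) : ℤ) - C u n + 2 - P u (n + 1) - P u n

/-- `v` is a complete return word of `w` in `u`. -/
def IsCRW {A : Type*} (u : ℕ → A) (w v : List A) : Prop :=
  v ∈ Lang u ∧ w.length < v.length ∧ w <+: v ∧ w <:+ v ∧
    {t | t + w.length ≤ v.length ∧ w <+: v.drop t}.ncard = 2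

section
variable {A : Type*} {u : ℕ → A}

def Eqv (u : ℕ → A) (i j n : ℕ) : Prop := ∀ k < n, u (i + k) = u (j + k)

def Rev (u : ℕ → A) (i j n : ℕ) : Prop := ∀ k l, k + l + 1 = n → u (i + k) = u (j + l)

@[simp] lemma len_fac (i n : ℕ) : (fac u i n).length = n := by simp [fac]

lemma get_fac (i n k : ℕ) (h : k < (fac u i n).length) : (fac u i n)[k] = u (i + k) := by
  simp [fac]

lemma eq_iff {i j n : ℕ} : fac u i n = fac u j n ↔ Eqv u i j n := by
  constructor
  · intro h k hk
    have h1 : k < (fac u i n).length := by simpa using hk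
    have h2 : k < (fac u j n).length := by simpa using hk
    rw [← get_fac i n k h1, ← get_fac j n k h2]
    simp only [h]
  · intro h
    apply List.ext_getElem (by simp)
    intro k h1 h2
    rw [get_fac, get_fac]; exact h k (by simpa using h1)

lemma rev_iff {i j n : ℕ} : (fac u i n).reverse = fac u j n ↔ Rev u i j n := by
  constructor
  · intro h k l hk
    have h1 : l < (fac u i n).reverse.length := by simp; omega
    have h2 : l < (fac u j n).length := by simp; omega
    have h3 : (fac u i n).reverse[l] = u (i + k) := by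
      rw [List.getElem_reverse, get_fac]
      have : (fac u i n).length - 1 - l = k := by simp; omega
      rw [this]
    rw [← get_fac j n l h2, ← h3]
    simp only [h]
  · intro h
    apply List.ext_getElem (by simp)
    intro k h1 h2
    rw [List.getElem_reverse, get_fac, get_fac]
    apply h
    simp at h2 ⊢; omega

lemma drop_fac (i n t : ℕ) : (fac u i n).drop t = fac u (i + t) (n - t) := by
  apply List.ext_getElem (by simp)
  intro k h1 h2
  rw [List.getElem_drop, get_fac, get_fac, add_assoc]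

lemma take_fac (i n t : ℕ) (h : t ≤ n) : (fac u i n).take t = fac u i t := by
  apply List.ext_getElem (by simp [h])
  intro k h1 h2
  rw [List.getElem_take, get_fac, get_fac]

lemma pre_iff {i j n m : ℕ} (h : n ≤ m) : fac u i n <+: fac u j m ↔ Eqv u i j n := by
  rw [List.prefix_iff_eq_take, len_fac, take_fac _ _ _ h, eq_iff]

/-- The positional form of the hypothesis on return words. -/
def Ret (u : ℕ → A) (K : ℕ) : Prop :=
  ∀ i d n, K ≤ n → Rev u i i n → 0 < d → Eqv u i (i + d) n →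
    (∀ t, 0 < t → t < d → ¬ Eqv u i (i + t) n) → Rev u i i (d + n)

lemma ret_of {K : ℕ}
    (hK : ∀ w ∈ Lang u, w.reverse = w → K ≤ w.length → ∀ v, IsCRW u w v → v.reverse = v) :
    Ret u K := by
  intro i d n hn hp hd he hno
  rw [← rev_iff]
  refine hK (fac u i n) ⟨i, n, rfl⟩ (rev_iff.2 hp) (by simpa using hn) _
    ⟨⟨i, _, rfl⟩, by simp; omega, (pre_iff (by omega)).2 (fun _ _ => rfl), ?_, ?_⟩
  · have h1 : (fac u i (d + n)).drop d = fac u i n := by
      rw [drop_fac, Nat.add_sub_cancel_left]; exact (eq_iff.2 he).symm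
    rw [← h1]; exact List.drop_suffix _ _
  · have : {t | t + (fac u i n).length ≤ (fac u i (d + n)).length ∧
        fac u i n <+: (fac u i (d + n)).drop t} = {0, d} := by
      ext t
      simp only [len_fac, drop_fac, Set.mem_setOf_eq, Set.mem_insert_iff, Set.mem_singleton_iff]
      constructor
      · rintro ⟨h1, h2⟩
        rw [pre_iff (by omega)] at h2
        by_contra hc
        push Not at hc
        exact hno t (by omega) (by omega) h2
      · rintro (rfl | rfl)
        · exact ⟨by omega, (pre_iff (by omega)).2 (fun _ _ => rfl)⟩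
        · exact ⟨le_rfl, (pre_iff (by omega)).2 he⟩
    rw [this, Set.ncard_pair (by omega)]

lemma back {K : ℕ} (h : Ret u K) {j n i : ℕ} (hn : K ≤ n) (hp : Rev u j j n) (hi : i < j)
    (he : Eqv u i j n) :
    ∃ i' < j, Eqv u i' j n ∧ Rev u i' i' (j - i' + n) := by
  classical
  have hex : ∃ d, 0 < d ∧ d ≤ j ∧ Eqv u (j - d) j n :=
    ⟨j - i, by omega, by omega, by rwa [show j - (j - i) = i by omega]⟩
  obtain ⟨hd0, hdj, hde⟩ := Nat.find_spec hex
  have hmin := fun m (hm : m < Nat.find hex) => Nat.find_min hex hm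
  generalize Nat.find hex = d at *
  refine ⟨j - d, by omega, hde, ?_⟩
  rw [show j - (j - d) = d by omega]
  refine h (j - d) d n hn ?_ hd0 (by rwa [show j - d + d = j by omega]) ?_
  · intro k l hkl
    rw [hde k (by omega), hde l (by omega)]; exact hp k l hkl
  · intro t ht0 htd hq
    apply hmin (d - t) (by omega)
    refine ⟨by omega, by omega, fun k hk => ?_⟩
    rw [show j - (d - t) = j - d + t by omega, ← hq k hk, hde k hk]

lemma trim {i n t : ℕ} (hp : Rev u i i n) (ht : 2 * t ≤ n) : Rev u (i + t) (i + t) (n - 2 * t) := by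
  intro k l hkl
  rw [add_assoc, add_assoc]; apply hp; omega

lemma fin_len [Finite A] (u : ℕ → A) (n : ℕ) : ∃ J, ∀ j, ∃ i < J, Eqv u i j n := by
  have hf : (Set.range fun i => fac u i n).Finite :=
    (List.finite_length_eq A n).subset (by rintro _ ⟨i, rfl⟩; simp)
  obtain ⟨s, -, hs, hst⟩ := Set.Finite.exists_subset_finite_image_eq
    (s := Set.univ) (f := fun i => fac u i n) hf (by rw [Set.image_univ])
  obtain ⟨J, hJ⟩ := hs.bddAbove
  refine ⟨J + 1, fun j => ?_⟩
  have : fac u j n ∈ (fun i => fac u i n) '' s := by rw [hst]; exact ⟨j, rfl⟩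
  obtain ⟨i, hi, he⟩ := this
  exact ⟨i, Nat.lt_succ_of_le (hJ hi), eq_iff.1 he⟩

lemma long_suffix [Finite A] {K : ℕ} (h : Ret u K) (hl : ∀ L, ∃ i n, L ≤ n ∧ Rev u i i n) :
    ∃ M, ∀ m ≥ M, ∃ i n, i + n = m ∧ K ≤ n ∧ Rev u i i n := by
  classical
  obtain ⟨J0, h0⟩ := fin_len u K
  obtain ⟨J1, h1⟩ := fin_len u (K + 1)
  refine ⟨J0 + J1 + K + 1, fun m hm => ?_⟩
  have cen : ∀ i n, K ≤ n → Rev u i i n →
      ∃ t s, (s = K ∨ s = K + 1) ∧ 2 * t + s = n ∧ Rev u (i + t) (i + t) s := by
    intro i n hn hp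
    refine ⟨(n - K) / 2, n - 2 * ((n - K) / 2), by omega, by omega, trim hp (by omega)⟩
  have hex : ∃ e, m < e ∧ ∃ j s, (s = K ∨ s = K + 1) ∧ j + s = e ∧ Rev u j j s := by
    obtain ⟨i, n, hn, hp⟩ := hl (2 * m + K + 4)
    obtain ⟨t, s, hs, hts, hq⟩ := cen i n (by omega) hp
    exact ⟨i + t + s, by omega, i + t, s, hs, rfl, hq⟩
  obtain ⟨hme, j, s, hs, hje, hp⟩ := Nat.find_spec hex
  have hmin := fun x (hx : x < Nat.find hex) => Nat.find_min hex hx
  generalize Nat.find hex = e at *
  have hprev : ∃ i < j, Eqv u i j s := by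
    rcases hs with rfl | rfl
    · obtain ⟨i, hi, he⟩ := h0 j; exact ⟨i, by omega, he⟩
    · obtain ⟨i, hi, he⟩ := h1 j; exact ⟨i, by omega, he⟩
  obtain ⟨i0, hi0, he0⟩ := hprev
  obtain ⟨i, hi, he, hv⟩ := back h (by omega) hp hi0 he0
  have hpi : Rev u i i s := by
    intro k l hkl
    rw [he k (by omega), he l (by omega)]; exact hp k l hkl
  have him : i + s ≤ m := by
    by_contra hc
    exact hmin (i + s) (by omega) ⟨by omega, i, s, hs, rfl, hpi⟩
  obtain ⟨t, s', hs', hts, hq⟩ := cen i (j - i + s) (by omega) hv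
  rcases Nat.eq_zero_or_pos t with rfl | ht
  · exact ⟨i, s, by omega, by omega, hpi⟩
  · have hc : i + t + s' ≤ m := by
      by_contra hc
      exact hmin (i + t + s') (by omega) ⟨by omega, i + t, s', hs', rfl, hq⟩
    exact ⟨i + (e - m), j - i + s - 2 * (e - m), by omega, by omega, trim hv (by omega)⟩

lemma new_suffix {K m : ℕ} (h : Ret u K) (hm : ∃ i n, i + n = m ∧ K ≤ n ∧ Rev u i i n) :
    ∃ i n, i + n = m ∧ Rev u i i n ∧ ∀ i' < i, ¬ Eqv u i' i n := by
  classical
  obtain ⟨n, hn, hK, hp⟩ := Nat.find_spec hm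
  have hmin := fun x (hx : x < Nat.find hm) => Nat.find_min hm hx
  generalize Nat.find hm = j at *
  refine ⟨j, n, hn, hp, fun i' hi' he => ?_⟩
  obtain ⟨i, hi, -, hv⟩ := back h hK hp hi' he
  exact hmin i hi ⟨j - i + n, by omega, by omega, hv⟩

def Old (u : ℕ → A) (n j : ℕ) : Prop := ∃ i < j, Eqv u i j n ∨ Rev u i j n

lemma old_a {n j : ℕ} (h : Old u (n + 1) j) : Old u n (j + 1) := by
  obtain ⟨i, hi, h | h⟩ := h
  · refine ⟨i + 1, by omega, Or.inl fun k hk => ?_⟩
    have := h (k + 1) (by omega)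
    rwa [show i + 1 + k = i + (k + 1) by omega, show j + 1 + k = j + (k + 1) by omega]
  · refine ⟨i, by omega, Or.inr fun k l hk => ?_⟩
    have := h k (l + 1) (by omega)
    rwa [show j + 1 + l = j + (l + 1) by omega]

lemma old_b {n j : ℕ} (h : Rev u j j (n + 1)) : Old u n (j + 1) := by
  refine ⟨j, by omega, Or.inr fun k l hk => ?_⟩
  have := h k (l + 1) (by omega)
  rwa [show j + 1 + l = j + (l + 1) by omega]

lemma old_c {n j : ℕ} (hq : ∃ i k, i + k = j + n + 1 ∧ Rev u i i k ∧ ∀ i' < i, ¬ Eqv u i' i k)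
    (he : ¬ Old u (n + 1) j) (hv : Old u n (j + 1)) : Rev u j j (n + 1) := by
  obtain ⟨i0, k, hk, hp, hnew⟩ := hq
  rcases lt_trichotomy i0 j with hlt | rfl | hgt
  · exfalso
    refine he ⟨i0, hlt, Or.inr fun a b hab => ?_⟩
    have := hp a (j - i0 + b) (by omega)
    rwa [show i0 + (j - i0 + b) = j + b by omega] at this
  · rwa [show k = n + 1 by omega] at hp
  · exfalso
    obtain ⟨i, hi, h | h⟩ := hv
    · refine hnew (i + (i0 - j - 1)) (by omega) fun a ha => ?_
      have := h (i0 - j - 1 + a) (by omega)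
      rwa [show j + 1 + (i0 - j - 1 + a) = i0 + a by omega, ← add_assoc] at this
    · refine hnew i (by omega) fun a ha => ?_
      have h1 := h a (i0 - j - 1 + (k - 1 - a)) (by omega)
      rw [show j + 1 + (i0 - j - 1 + (k - 1 - a)) = i0 + (k - 1 - a) by omega] at h1
      rw [h1]; exact (hp a (k - 1 - a) (by omega)).symm

open Classical in
noncomputable def Sy (u : ℕ → A) (n j : ℕ) : Finset (List A) :=
  (Finset.range j).image (fun i => fac u i n) ∪
    (Finset.range j).image (fun i => (fac u i n).reverse)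

open Classical in
noncomputable def Sp (u : ℕ → A) (n j : ℕ) : Finset (List A) :=
  (Sy u n j).filter fun w => w.reverse = w

lemma mem_Sy {n j : ℕ} {w : List A} :
    w ∈ Sy u n j ↔ ∃ i < j, fac u i n = w ∨ (fac u i n).reverse = w := by
  simp only [Sy, Finset.mem_union, Finset.mem_image, Finset.mem_range]
  constructor
  · rintro (⟨i, hi, h⟩ | ⟨i, hi, h⟩)
    exacts [⟨i, hi, Or.inl h⟩, ⟨i, hi, Or.inr h⟩]
  · rintro ⟨i, hi, h | h⟩
    exacts [Or.inl ⟨i, hi, h⟩, Or.inr ⟨i, hi, h⟩]

lemma rev_mem {n j : ℕ} {w : List A} (h : w ∈ Sy u n j) : w.reverse ∈ Sy u n j := by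
  obtain ⟨i, hi, h | h⟩ := mem_Sy.1 h
  · exact mem_Sy.2 ⟨i, hi, Or.inr (by rw [h])⟩
  · exact mem_Sy.2 ⟨i, hi, Or.inl (by rw [← h, List.reverse_reverse])⟩

lemma old_iff {n j : ℕ} : fac u j n ∈ Sy u n j ↔ Old u n j := by
  simp only [mem_Sy, eq_iff, rev_iff, Old]

open Classical in
lemma Sy_succ (n j : ℕ) :
    Sy u n (j + 1) = insert (fac u j n) (insert (fac u j n).reverse (Sy u n j)) := by
  ext w
  simp only [Finset.mem_insert, mem_Sy]
  constructor
  · rintro ⟨i, hi, h⟩
    rcases Nat.lt_succ_iff_lt_or_eq.1 hi with hi | rfl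
    · exact Or.inr (Or.inr ⟨i, hi, h⟩)
    · rcases h with h | h
      exacts [Or.inl h.symm, Or.inr (Or.inl h.symm)]
  · rintro (h | h | ⟨i, hi, h⟩)
    exacts [⟨j, by omega, Or.inl h.symm⟩, ⟨j, by omega, Or.inr h.symm⟩, ⟨i, by omega, h⟩]

lemma step_old {n j : ℕ} (h : Old u n j) :
    (Sy u n (j + 1)).card = (Sy u n j).card ∧ (Sp u n (j + 1)).card = (Sp u n j).card := by
  classical
  have h1 := old_iff.2 h
  have : Sy u n (j + 1) = Sy u n j := by
    rw [Sy_succ, Finset.insert_eq_of_mem (rev_mem h1), Finset.insert_eq_of_mem h1]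
  simp only [Sp, this, and_self]

lemma step_pal {n j : ℕ} (h : ¬ Old u n j) (hp : Rev u j j n) :
    (Sy u n (j + 1)).card = (Sy u n j).card + 1 ∧
      (Sp u n (j + 1)).card = (Sp u n j).card + 1 := by
  classical
  have h1 := mt old_iff.1 h
  have h2 := rev_iff.2 hp
  constructor
  · rw [Sy_succ, h2, Finset.insert_idem, Finset.card_insert_of_notMem h1]
  · unfold Sp
    rw [Sy_succ, h2, Finset.insert_idem, Finset.filter_insert, if_pos h2,
      Finset.card_insert_of_notMem (fun hc => h1 (Finset.mem_filter.1 hc).1)]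

lemma step_non {n j : ℕ} (h : ¬ Old u n j) (hp : ¬ Rev u j j n) :
    (Sy u n (j + 1)).card = (Sy u n j).card + 2 ∧
      (Sp u n (j + 1)).card = (Sp u n j).card := by
  classical
  have h1 := mt old_iff.1 h
  have h2 := mt rev_iff.1 hp
  have h3 : (fac u j n).reverse ∉ Sy u n j := fun hc => h1 (by simpa using rev_mem hc)
  constructor
  · rw [Sy_succ, Finset.card_insert_of_notMem, Finset.card_insert_of_notMem h3]
    rw [Finset.mem_insert, not_or]
    exact ⟨fun hc => h2 hc.symm, h1⟩
  · unfold Sp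
    rw [Sy_succ, Finset.filter_insert, if_neg h2, Finset.filter_insert, if_neg]
    rw [List.reverse_reverse]; exact fun hc => h2 hc.symm

lemma step_new {n j : ℕ} (h : ¬ Old u n j) :
    (Sy u n (j + 1)).card + (Sp u n (j + 1)).card = (Sy u n j).card + (Sp u n j).card + 2 := by
  by_cases hp : Rev u j j n
  · have := step_pal h hp; omega
  · have := step_non h hp; omega

lemma inv {n : ℕ}
    (hq : ∀ j, ∃ i k, i + k = j + n + 1 ∧ Rev u i i k ∧ ∀ i' < i, ¬ Eqv u i' i k) (j : ℕ) :
    (Sy u (n + 1) j).card + 2 =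
      (Sy u n (j + 1)).card + (Sp u (n + 1) j).card + (Sp u n (j + 1)).card := by
  induction j with
  | zero =>
    have := step_new (u := u) (n := n) (j := 0) (by rintro ⟨i, hi, -⟩; omega)
    have h0 : ∀ n, Sy u n 0 = ∅ := fun n => by simp [Sy]
    have h1 : ∀ n, Sp u n 0 = ∅ := fun n => by simp [Sp, h0]
    simp only [h0, h1, Finset.card_empty] at this ⊢
    omega
  | succ j ih =>
    by_cases he : Old u (n + 1) j
    · have := step_old he
      have := step_old (old_a he)
      omega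
    · by_cases hv : Old u n (j + 1)
      · have := step_pal he (old_c (hq j) he hv)
        have := step_old hv
        omega
      · have := step_non he (fun hp => hv (old_b hp))
        have := step_new hv
        omega

lemma stab [Finite A] (hrev : ∀ w ∈ Lang u, w.reverse ∈ Lang u) (n : ℕ) :
    ∃ J, ∀ j ≥ J, C u n = (Sy u n j).card ∧ P u n = (Sp u n j).card := by
  obtain ⟨J, hJ⟩ := fin_len u n
  refine ⟨J, fun j hj => ?_⟩
  have key : ∀ w, w ∈ Sy u n j ↔ w ∈ Lang u ∧ w.length = n := by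
    intro w
    rw [mem_Sy]
    constructor
    · rintro ⟨i, -, rfl | rfl⟩
      · exact ⟨⟨i, n, rfl⟩, by simp⟩
      · exact ⟨hrev _ ⟨i, n, rfl⟩, by simp⟩
    · rintro ⟨⟨i, m, rfl⟩, hm⟩
      rw [len_fac] at hm
      subst hm
      obtain ⟨i', hi', he⟩ := hJ i
      exact ⟨i', by omega, Or.inl (eq_iff.2 he)⟩
  constructor
  · rw [C, ← Set.ncard_coe_finset]
    congr 1; ext w; simp [key]
  · rw [P, ← Set.ncard_coe_finset]
    congr 1; ext w; simp [Sp, key, and_assoc]

end

theorem result (A : Type*) [Finite A] (u : ℕ → A)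
    (hrev : ∀ w ∈ Lang u, w.reverse ∈ Lang u)
    (hinf : {w | w ∈ Lang u ∧ w.reverse = w}.Infinite) (K : ℤ)
    (hK : ∀ w ∈ Lang u, w.reverse = w → K ≤ w.length → ∀ v, IsCRW u w v → v.reverse = v) :
    ∃ N, ∀ n ≥ N, T u n = 0 := by
  have hR : Ret u K.toNat := ret_of fun w hw hp hl => hK w hw hp (by omega)
  have hl : ∀ L, ∃ i n, L ≤ n ∧ Rev u i i n := by
    intro L
    by_contra hc
    push Not at hc
    apply hinf
    refine (List.finite_length_lt A L).subset ?_
    rintro _ ⟨⟨i, n, rfl⟩, hp⟩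
    simp only [Set.mem_setOf_eq, len_fac]
    by_contra hn
    exact hc i n (by omega) (rev_iff.1 hp)
  obtain ⟨M, hM⟩ := long_suffix hR hl
  refine ⟨M, fun n hn => ?_⟩
  obtain ⟨J0, h0⟩ := stab hrev n
  obtain ⟨J1, h1⟩ := stab hrev (n + 1)
  have := inv (u := u) (n := n) (fun j => new_suffix hR (hM _ (by omega))) (J0 + J1)
  obtain ⟨a1, a2⟩ := h0 (J0 + J1 + 1) (by omega)
  obtain ⟨b1, b2⟩ := h1 (J0 + J1) (by omega)
  unfold T
  omega

end Pool.Agent.Results.MP_0fbb7a_co.Vanish
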